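import Pool.Agent.H8.Bru5

namespace Pool.Agent.Results.MP_93b8e4_co.Simple

open Pool.Agent.H8.Bru

theorem result (n : ℕ) (u w : Equiv.Perm (Fin (n + 1))) (huw : BrLt u w)
    (hsm : {t : Equiv.Perm (Fin (n + 1)) | t.IsSwap ∧ BrLe (t * u) w}.ncard = len w) :
    ∃ i : Fin n, (¬ BrLt (simple i * u) u ∧ BrLt u (simple i * u)) ∧
      (¬ BrLe (simple i * u) w ∨ BrLt (simple i * w) w) := by
  obtain ⟨i, h1, h2⟩ := main u w huw hsm
  refine ⟨i, ⟨fun h => ?_, h1⟩, h2⟩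
  have a := len_lt_of_brlt h
  have b := len_lt_of_brlt h1
  omega

end Pool.Agent.Results.MP_93b8e4_co.Simple
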